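import Pool.Agent.Helper72.RN.SVS

/-! # Row RDEG of the sheet for `N_9(H) ≥ H ^ (5/36 - ε)` (MP_798d7d_nt) -/

set_option autoImplicit false

namespace Pool.Helper70.RN

open Polynomial
open Pool.Helper70.RT (syl)

namespace S72R

section
variable {K σ : Type*} [CommRing K]

/-- all coefficients have total degree at most `n` -/
def D (n : ℕ) (p : Polynomial (MvPolynomial σ K)) : Prop := ∀ k, (p.coeff k).totalDegree ≤ n

theorem D.mono {n m : ℕ} {p : Polynomial (MvPolynomial σ K)} (h : D n p) (hn : n ≤ m) : D m p :=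
  fun k => (h k).trans hn

theorem D.add {n m : ℕ} {p q : Polynomial (MvPolynomial σ K)} (hp : D n p) (hq : D m q) :
    D (max n m) (p + q) := by
  intro k
  rw [coeff_add]
  exact (MvPolynomial.totalDegree_add _ _).trans (max_le_max (hp k) (hq k))

theorem D.neg {n : ℕ} {p : Polynomial (MvPolynomial σ K)} (hp : D n p) : D n (-p) := by
  intro k
  rw [coeff_neg, MvPolynomial.totalDegree_neg]
  exact hp k

theorem D.sub {n m : ℕ} {p q : Polynomial (MvPolynomial σ K)} (hp : D n p) (hq : D m q) :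
    D (max n m) (p - q) := by
  rw [sub_eq_add_neg]
  exact hp.add hq.neg

theorem D.mul {n m : ℕ} {p q : Polynomial (MvPolynomial σ K)} (hp : D n p) (hq : D m q) :
    D (n + m) (p * q) := by
  intro k
  rw [coeff_mul]
  refine MvPolynomial.totalDegree_finsetSum_le fun x _ => ?_
  exact (MvPolynomial.totalDegree_mul _ _).trans (Nat.add_le_add (hp x.1) (hq x.2))

theorem D.C {n : ℕ} {a : MvPolynomial σ K} (h : a.totalDegree ≤ n) :
    D n (Polynomial.C a : Polynomial (MvPolynomial σ K)) := by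
  intro k
  rw [coeff_C]
  split_ifs
  · exact h
  · rw [MvPolynomial.totalDegree_zero]
    exact Nat.zero_le _

theorem D.X : D 0 (Polynomial.X : Polynomial (MvPolynomial σ K)) := by
  intro k
  rw [coeff_X]
  split_ifs
  · rw [MvPolynomial.totalDegree_one]
  · rw [MvPolynomial.totalDegree_zero]

theorem D.num (n : ℕ) [n.AtLeastTwo] :
    D 0 (OfNat.ofNat n : Polynomial (MvPolynomial σ K)) := by
  rw [← map_ofNat (Polynomial.C : MvPolynomial σ K →+* Polynomial (MvPolynomial σ K)) n]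
  refine D.C ?_
  rw [← map_ofNat (MvPolynomial.C : K →+* MvPolynomial σ K) n, MvPolynomial.totalDegree_C]

theorem D.one : D 0 (1 : Polynomial (MvPolynomial σ K)) := by
  rw [← map_one (Polynomial.C : MvPolynomial σ K →+* Polynomial (MvPolynomial σ K))]
  refine D.C ?_
  rw [MvPolynomial.totalDegree_one]

theorem D.pow {n : ℕ} {p : Polynomial (MvPolynomial σ K)} (hp : D n p) (k : ℕ) :
    D (k * n) (p ^ k) := by
  induction k with
  | zero =>
    rw [pow_zero, zero_mul]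
    exact D.one
  | succ k ih =>
    rw [pow_succ, Nat.succ_mul]
    exact ih.mul hp

end

section
variable {K : Type*} [CommRing K] {v : Fin 4 → Polynomial (MvPolynomial (Fin 4) K)}

theorem dn1 (h : ∀ i, D 1 (v i)) : D 2 (n1 v) := by
  unfold n1
  exact (((D.num 4).mul ((h 1).pow 2)).add ((D.num 4).mul ((h 2).pow 2))).add ((h 3).pow 2)

theorem dn2 (h : ∀ i, D 1 (v i)) : D 2 (n2 v) := by
  unfold n2
  exact (((h 1).pow 2).add ((h 2).pow 2)).add ((D.num 16).mul ((h 3).pow 2))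

theorem dm1 (h : ∀ i, D 1 (v i)) : D 4 (m1 v) := by
  unfold m1
  exact ((((D.num 16).mul ((h 1).pow 2)).mul ((h 2).pow 2)).add
    (((D.num 4).mul ((h 1).pow 2)).mul ((h 3).pow 2))).add
    (((D.num 4).mul ((h 2).pow 2)).mul ((h 3).pow 2))

theorem dm2 (h : ∀ i, D 1 (v i)) : D 4 (m2 v) := by
  unfold m2
  exact ((((h 1).pow 2).mul ((h 2).pow 2)).add
    (((D.num 16).mul ((h 1).pow 2)).mul ((h 3).pow 2))).add
    (((D.num 16).mul ((h 2).pow 2)).mul ((h 3).pow 2))

theorem dpr (h : ∀ i, D 1 (v i)) : D 3 (pr v) := by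
  unfold pr
  exact (((D.num 4).mul (h 1)).mul (h 2)).mul (h 3)

theorem dcc (h : ∀ i, D 1 (v i)) : D 2 (cc v) := by
  unfold cc
  exact (dn1 h).sub (dn2 h)

theorem de2 (h : ∀ i, D 1 (v i)) : D 2 (e2 v) := by
  unfold e2
  exact (((D.num 4).neg).mul ((h 0).pow 2)).sub ((D.num 2).mul ((dn1 h).add (dn2 h)))

theorem de3 (h : ∀ i, D 1 (v i)) : D 3 (e3 v) := by
  unfold e3
  exact (((D.num 4).mul (h 0)).mul (dcc h)).add ((D.num 16).mul (dpr h))

theorem dg0 (h : ∀ i, D 1 (v i)) : D 4 (g0 v) := by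
  unfold g0
  exact ((((D.num 2).mul ((h 0).pow 4)).sub (((D.num 2).mul ((h 0).pow 2)).mul
    ((dn1 h).add (dn2 h)))).add (((D.num 2).mul (dn1 h)).mul (dn2 h))).sub
    ((D.num 4).mul ((dm1 h).add (dm2 h)))

theorem dl1 (h : ∀ i, D 1 (v i)) : D 3 (l1 v) := by
  unfold l1
  exact ((D.num 8).mul ((h 0).pow 3)).sub (((D.num 4).mul (h 0)).mul ((dn1 h).add (dn2 h)))

theorem dd0 (h : ∀ i, D 1 (v i)) : D 4 (d0 v) := by
  unfold d0
  exact (((((((D.num 2).neg).mul ((h 0).pow 2)).mul (dcc h)).add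
    (((D.num 16).mul (h 0)).mul (dpr h))).add ((dn1 h).pow 2)).sub ((dn2 h).pow 2)).sub
    ((D.num 4).mul ((dm1 h).sub (dm2 h)))

theorem dh3 (h : ∀ i, D 1 (v i)) : D 5 (h3 v) := by
  unfold h3
  exact ((((((D.num 16).neg).mul (h 0)).mul (dd0 h)).add (((D.num 4).mul (dcc h)).mul (dl1 h))).sub
    ((((D.num 16).mul (de2 h)).mul (h 0)).mul (dcc h))).add
    (((D.num 32).mul (de3 h)).mul ((h 0).pow 2)) |>.sub (((D.num 256).mul ((h 0).pow 3)).mul (dcc h))

theorem dh2 (h : ∀ i, D 1 (v i)) : D 6 (h2 v) := by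
  unfold h2
  exact ((((dl1 h).pow 2).sub (((D.num 4).mul (dcc h)).mul (dd0 h))).sub ((D.num 2).mul
    ((((de2 h).mul ((dcc h).pow 2)).sub ((((D.num 8).mul (de3 h)).mul (h 0)).mul (dcc h))).add
    (((D.num 16).mul (dg0 h)).mul ((h 0).pow 2))))).sub
    (((D.num 96).mul ((h 0).pow 2)).mul ((dcc h).pow 2))

theorem dh1 (h : ∀ i, D 1 (v i)) : D 7 (h1 v) := by
  unfold h1
  exact (((((D.num 2).neg).mul (dl1 h)).mul (dd0 h)).sub ((D.num 2).mul
    ((((de3 h).mul ((dcc h).pow 2)).neg).add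
    ((((D.num 8).mul (dg0 h)).mul (h 0)).mul (dcc h))))).sub
    (((D.num 16).mul (h 0)).mul ((dcc h).pow 3))

theorem dh0 (h : ∀ i, D 1 (v i)) : D 8 (h0 v) := by
  unfold h0
  exact (((dd0 h).pow 2).sub (((D.num 2).mul (dg0 h)).mul ((dcc h).pow 2))).sub ((dcc h).pow 4)

theorem dq4 : D 0 (q4 (X : Polynomial (MvPolynomial (Fin 4) K))) := by
  unfold q4
  exact (D.num 4).mul D.X

theorem dq3 (h : ∀ i, D 1 (v i)) : D 5 (q3 v) := dh3 h

theorem dq2 (h : ∀ i, D 1 (v i)) : D 6 (q2 v X) := by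
  unfold q2
  exact ((((D.num 2).mul (de2 h)).mul D.X).add (dh2 h))

theorem dq1 (h : ∀ i, D 1 (v i)) : D 7 (q1 v X) := by
  unfold q1
  exact ((((D.num 2).neg).mul (de3 h)).mul D.X).add (dh1 h)

theorem dq0 (h : ∀ i, D 1 (v i)) : D 8 (q0 v X) := by
  unfold q0
  exact (((D.X).pow 2).add (((D.num 2).mul (dg0 h)).mul D.X)).add (dh0 h)

theorem dfI (h : ∀ i, D 1 (v i)) : D 12 (fI v X) := by
  unfold fI
  exact ((((D.num 12).mul dq4).mul (dq0 h)).sub (((D.num 3).mul (dq3 h)).mul (dq1 h))).add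
    ((dq2 h).pow 2)

theorem dfJ (h : ∀ i, D 1 (v i)) : D 18 (fJ v X) := by
  unfold fJ
  exact ((((((((D.num 72).mul dq4).mul (dq2 h)).mul (dq0 h)).add
    ((((D.num 9).mul (dq3 h)).mul (dq2 h)).mul (dq1 h))).sub
    (((D.num 27).mul dq4).mul ((dq1 h).pow 2))).sub
    (((D.num 27).mul (dq0 h)).mul ((dq3 h).pow 2))).sub ((D.num 2).mul ((dq2 h).pow 3)))

theorem deg_Ru [Nontrivial K] : (Ru (fun i => MvPolynomial.X i : Fin 4 → MvPolynomial (Fin 4) K)).totalDegree ≤
    1000 := by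
  have h : ∀ i, D 1 ((fun i => Polynomial.C (MvPolynomial.X i) :
      Fin 4 → Polynomial (MvPolynomial (Fin 4) K)) i) :=
    fun i => D.C (by rw [MvPolynomial.totalDegree_X])
  have hI := dfI h
  have hJ := dfJ h
  have hent : ∀ i j, ((syl (pI (fun i => MvPolynomial.X i : Fin 4 → MvPolynomial (Fin 4) K))
      (pJ (fun i => MvPolynomial.X i))) i j).totalDegree ≤ 18 := by
    intro i j
    simp only [syl, Matrix.of_apply]
    split_ifs
    · exact (hI _).trans (by norm_num)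
    · rw [MvPolynomial.totalDegree_zero]
      norm_num
    · exact hJ _
    · rw [MvPolynomial.totalDegree_zero]
      norm_num
  unfold Ru
  rw [Matrix.det_apply']
  refine MvPolynomial.totalDegree_finsetSum_le fun s _ => ?_
  refine (MvPolynomial.totalDegree_mul _ _).trans ?_
  have h1 : (((Equiv.Perm.sign s : ℤˣ) : ℤ) : MvPolynomial (Fin 4) K).totalDegree = 0 := by
    rw [← map_intCast (MvPolynomial.C : K →+* MvPolynomial (Fin 4) K), MvPolynomial.totalDegree_C]
  rw [h1, zero_add]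
  refine (MvPolynomial.totalDegree_finsetProd _ _).trans ?_
  refine (Finset.sum_le_sum fun i _ => hent (s i) i).trans ?_
  simp

end

end S72R

open S72R in
theorem st_RDEG (h9 : ST_R9) : ST_RDEG := by
  intro q hq hqQ
  have : Fact q.Prime := ⟨hq⟩
  refine ⟨Ru (fun i => MvPolynomial.X i), ?_, deg_Ru, ?_⟩
  · intro h0
    have h1 := S72.map_Ru (MvPolynomial.eval (fun i => ((vb i : ℤ) : ZMod q)))
      (fun i => MvPolynomial.X i : Fin 4 → MvPolynomial (Fin 4) (ZMod q))
    rw [h0, map_zero] at h1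
    simp only [MvPolynomial.eval_X] at h1
    have h2 := S72.map_Ru (Int.castRingHom (ZMod q)) vb
    have h3 : (Int.castRingHom (ZMod q)) (Ru vb) = 0 := by
      rw [h2]
      exact h1.symm
    have h4 : (q : ℤ) ∣ Ru vb := (ZMod.intCast_zmod_eq_zero_iff_dvd _ q).1 h3
    have h5 := Nat.le_of_dvd (Int.natAbs_pos.2 h9) (Int.natCast_dvd.1 h4)
    unfold QQ at hqQ
    omega
  · intro u
    have h1 := S72.map_Ru (MvPolynomial.eval u)
      (fun i => MvPolynomial.X i : Fin 4 → MvPolynomial (Fin 4) (ZMod q))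
    simp only [MvPolynomial.eval_X] at h1
    exact h1

end Pool.Helper70.RN
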